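import Pool.Agent.H38.AE.TargetsN
import Pool.Agent.H69.AE.J1

/-! Module N1 of board aen_modules (MP_7ecdd4_nt): tuples with `n - 1` radicals of small
product. -/

set_option autoImplicit false

namespace Pool.Agent.H68.AE.N1

open Pool.Agent.H38.AE Pool.Agent.H69.AE

theorem RR_zero : RR 0 = 1 := by
  unfold RR rad
  simp

/-- the box of the tuples with entry `k` equal to `0` -/
noncomputable def tt (n H : ℕ) (k : Fin n) (l : Fin n) : Finset ℤ := if l = k then {0} else Tz H

open Classical in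
/-- the tuples without their entry `k` -/
noncomputable def P (n H : ℕ) (Z : ℝ) (k : Fin n) : Finset (Fin n → ℤ) :=
  (Fintype.piFinset (tt n H k)).filter fun y => ∏ l, RR (y l) ≤ Z

theorem card_P_le (n H : ℕ) (Z B : ℝ) (hZ : 0 ≤ Z) (hB : 1 ≤ B)
    (hS : ∑ x ∈ Tz H, 1 / RR x ≤ B) (k : Fin n) : ((P n H Z k).card : ℝ) ≤ Z * B ^ n := by
  classical
  have hpos : ∀ y : Fin n → ℤ, 0 < ∏ l, RR (y l) := fun y =>
    Finset.prod_pos fun l _ => RR_pos _
  have h2 : ((P n H Z k).card : ℝ) ≤ ∑ y ∈ P n H Z k, Z * ∏ l, (1 / RR (y l)) := by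
    rw [← nsmul_one, ← Finset.sum_const]
    refine Finset.sum_le_sum fun y hy => ?_
    have hy' := (Finset.mem_filter.1 hy).2
    have e : Z * ∏ l, (1 / RR (y l)) = Z / ∏ l, RR (y l) := by
      rw [Finset.prod_div_distrib, Finset.prod_const_one, mul_one_div]
    rw [e, le_div_iff₀ (hpos y), one_mul]
    exact hy'
  have h3 : ∑ y ∈ P n H Z k, Z * ∏ l, (1 / RR (y l)) ≤
      ∑ y ∈ Fintype.piFinset (tt n H k), Z * ∏ l, (1 / RR (y l)) := by
    refine Finset.sum_le_sum_of_subset_of_nonneg (Finset.filter_subset _ _) fun y _ _ => ?_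
    exact mul_nonneg hZ (Finset.prod_nonneg fun l _ => (one_div_pos.2 (RR_pos _)).le)
  have h4 : ∑ y ∈ Fintype.piFinset (tt n H k), Z * ∏ l, (1 / RR (y l)) ≤ Z * B ^ n := by
    rw [← Finset.mul_sum]
    refine mul_le_mul_of_nonneg_left ?_ hZ
    rw [← Finset.prod_univ_sum (tt n H k) fun _ x => 1 / RR x]
    have h5 : ∀ l ∈ (Finset.univ : Finset (Fin n)), ∑ x ∈ tt n H k l, 1 / RR x ≤ B := by
      intro l _
      unfold tt
      split_ifs with h
      · rw [Finset.sum_singleton, RR_zero, one_div_one]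
        exact hB
      · exact hS
    refine (Finset.prod_le_prod (fun l _ => ?_) h5).trans ?_
    · exact Finset.sum_nonneg fun x _ => (one_div_pos.2 (RR_pos _)).le
    · rw [Finset.prod_const, Finset.card_univ, Fintype.card_fin]
  exact h2.trans (h3.trans h4)

theorem ncard_le (n H : ℕ) (Z : ℝ) :
    (NT n H Z).ncard ≤ ∑ k : Fin n, (P n H Z k).card := by
  classical
  rcases isEmpty_or_nonempty (Fin n) with he | hne
  · have : NT n H Z = ∅ := by
      ext x
      simp only [Set.mem_empty_iff_false, iff_false]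
      rintro ⟨-, k, -⟩
      exact he.elim k
    rw [this, Set.ncard_empty]
    exact Nat.zero_le _
  have hk : ∀ x ∈ NT n H Z, ∃ k : Fin n,
      ∏ l ∈ Finset.univ.filter (fun l => l ≠ k), RR (x l) ≤ Z := fun x hx => hx.2
  choose! κ hκ using hk
  rw [← Finset.card_sigma, ← Set.ncard_coe_finset]
  refine Set.ncard_le_ncard_of_injOn
    (fun x : Fin n → ℤ => (⟨κ x, Function.update x (κ x) 0⟩ : Σ _ : Fin n, Fin n → ℤ)) ?_ ?_
    (Finset.finite_toSet _)
  · intro x hx
    rw [Finset.mem_coe, Finset.mem_sigma]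
    refine ⟨Finset.mem_univ _, ?_⟩
    unfold P
    rw [Finset.mem_filter, Fintype.mem_piFinset]
    refine ⟨fun l => ?_, ?_⟩
    · show Function.update x (κ x) 0 l ∈ tt n H (κ x) l
      unfold tt
      by_cases h : l = κ x
      · rw [if_pos h, h, Function.update_self, Finset.mem_singleton]
      · rw [if_neg h, Function.update_of_ne h]
        unfold Tz
        rw [Finset.mem_filter, Finset.mem_Icc]
        exact ⟨abs_le.1 (hx.1.2.2.2 l), hx.1.1 l⟩
    · refine le_trans (le_of_eq ?_) (hκ x hx)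
      rw [← Finset.prod_filter_mul_prod_filter_not Finset.univ (fun l => l ≠ κ x)]
      have e1 : ∏ l ∈ Finset.univ.filter (fun l => ¬ l ≠ κ x),
          RR (Function.update x (κ x) 0 l) = 1 := by
        refine Finset.prod_eq_one fun l hl => ?_
        have : l = κ x := by simpa using (Finset.mem_filter.1 hl).2
        rw [this, Function.update_self, RR_zero]
      rw [e1, mul_one]
      refine Finset.prod_congr rfl fun l hl => ?_
      show RR (Function.update x (κ x) 0 l) = RR (x l)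
      rw [Function.update_of_ne (Finset.mem_filter.1 hl).2]
  · intro x hx y hy hxy
    obtain ⟨h1, h2⟩ := Sigma.mk.inj hxy
    have h2' := eq_of_heq h2
    have h3 : ∀ l, l ≠ κ x → x l = y l := by
      intro l hl
      have := congrFun h2' l
      rwa [Function.update_of_ne hl, Function.update_of_ne (h1 ▸ hl)] at this
    funext l
    by_cases hl : l = κ x
    · have sx := hx.1.2.2.1
      have sy := hy.1.2.2.1
      rw [← Finset.add_sum_erase _ _ (Finset.mem_univ (κ x))] at sx sy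
      have e : ∑ i ∈ Finset.univ.erase (κ x), x i = ∑ i ∈ Finset.univ.erase (κ x), y i :=
        Finset.sum_congr rfl fun i hi => h3 i (Finset.ne_of_mem_erase hi)
      rw [hl]
      linarith
    · exact h3 l hl

theorem pf_N1 : T_A → T_N1 := by
  intro hA n ε hε
  have hn1 : (0 : ℝ) < n + 1 := by positivity
  obtain ⟨C, hC, hA⟩ := hA (ε / (n + 1)) (by positivity)
  have hC' : 1 ≤ max C 1 := le_max_right _ _
  refine ⟨n * (2 * max C 1) ^ n + 1, by positivity, fun H Z hH hZ => ?_⟩
  have hH1 : (1 : ℝ) ≤ H := by exact_mod_cast hH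
  have hH0 : (0 : ℝ) < H := by linarith
  obtain ⟨B, hBdef⟩ : ∃ B : ℝ, B = 2 * (max C 1 * (H : ℝ) ^ (ε / (n + 1))) := ⟨_, rfl⟩
  have hp : 1 ≤ (H : ℝ) ^ (ε / (n + 1)) := Real.one_le_rpow hH1 (by positivity)
  have hB1 : 1 ≤ B := by
    rw [hBdef]
    nlinarith [mul_le_mul hC' hp zero_le_one (by positivity)]
  have hSB : ∑ x ∈ Tz H, 1 / RR x ≤ B := by
    refine (sum_le H).trans ?_
    rw [hBdef]
    refine mul_le_mul_of_nonneg_left ((hA H hH).trans ?_) (by norm_num)
    exact mul_le_mul_of_nonneg_right (le_max_left _ _) (by positivity)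
  have h1 : ((NT n H Z).ncard : ℝ) ≤ ∑ k : Fin n, ((P n H Z k).card : ℝ) := by
    exact_mod_cast ncard_le n H Z
  have h2 : ∑ k : Fin n, ((P n H Z k).card : ℝ) ≤ n * (Z * B ^ n) := by
    refine (Finset.sum_le_sum fun k _ => card_P_le n H Z B hZ hB1 hSB k).trans ?_
    rw [Finset.sum_const, Finset.card_univ, Fintype.card_fin, nsmul_eq_mul]
  have h3 : B ^ n ≤ (2 * max C 1) ^ n * (H : ℝ) ^ ε := by
    rw [hBdef, ← mul_assoc, mul_pow]
    refine mul_le_mul_of_nonneg_left ?_ (by positivity)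
    rw [← Real.rpow_natCast, ← Real.rpow_mul hH0.le]
    refine Real.rpow_le_rpow_of_exponent_le hH1 ?_
    rw [div_mul_eq_mul_div, div_le_iff₀ hn1]
    nlinarith
  have h4 : (0 : ℝ) ≤ (H : ℝ) ^ ε * Z := by positivity
  have h5 : (n : ℝ) * (Z * B ^ n) ≤ n * (Z * ((2 * max C 1) ^ n * (H : ℝ) ^ ε)) :=
    mul_le_mul_of_nonneg_left (mul_le_mul_of_nonneg_left h3 hZ) (by positivity)
  calc ((NT n H Z).ncard : ℝ) ≤ n * (Z * ((2 * max C 1) ^ n * (H : ℝ) ^ ε)) :=
        h1.trans (h2.trans h5)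
    _ ≤ (n * (2 * max C 1) ^ n + 1) * (H : ℝ) ^ ε * Z := by nlinarith

end Pool.Agent.H68.AE.N1
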