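import Pool.Agent.H38.AE.TargetsN
import Pool.Agent.H69.AE.J1
import Pool.Agent.H68.AE.N1

/-! Module N2 of board aen_modules (MP_7ecdd4_nt): tuples with a good divisor of one entry. -/

set_option autoImplicit false

open Finset

namespace Pool.Agent.H68.AE.N2

open Pool.Agent.H38.AE Pool.Agent.H69.AE Pool.Agent.H68.AE.N1

/-! ### Cauchy–Schwarz over the fibres -/

theorem fib {α R : Type} [Fintype R] [DecidableEq R] [DecidableEq α] (A : Finset α) (φ : α → R)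
    (w : α → ℝ) (g : R → R) :
    ∑ t ∈ (A ×ˢ A).filter (fun t => φ t.2 = g (φ t.1)), w t.1 * w t.2 =
      ∑ r, (∑ a ∈ A.filter (fun a => φ a = r), w a) *
        (∑ a ∈ A.filter (fun a => φ a = g r), w a) := by
  rw [← Finset.sum_fiberwise ((A ×ˢ A).filter (fun t => φ t.2 = g (φ t.1))) (fun t => φ t.1)]
  refine Finset.sum_congr rfl fun r _ => ?_
  rw [Finset.sum_mul_sum, ← Finset.sum_product']
  refine Finset.sum_congr ?_ fun _ _ => rfl
  ext t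
  simp only [Finset.mem_filter, Finset.mem_product]
  constructor
  · rintro ⟨⟨⟨h1, h2⟩, h3⟩, h4⟩
    exact ⟨⟨h1, h4⟩, h2, by rw [h3, h4]⟩
  · rintro ⟨⟨h1, h4⟩, h2, h3⟩
    exact ⟨⟨⟨h1, h2⟩, by rw [h3, h4]⟩, h4⟩

theorem cs {α R : Type} [Fintype R] [DecidableEq R] [DecidableEq α] [AddCommGroup R]
    (A : Finset α) (φ : α → R) (w : α → ℝ) (c : R) :
    ∑ t ∈ (A ×ˢ A).filter (fun t => φ t.1 + φ t.2 = c), w t.1 * w t.2 ≤
      ∑ t ∈ (A ×ˢ A).filter (fun t => φ t.1 = φ t.2), w t.1 * w t.2 := by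
  have e1 : (A ×ˢ A).filter (fun t => φ t.1 + φ t.2 = c) =
      (A ×ˢ A).filter (fun t => φ t.2 = c - φ t.1) := by
    refine Finset.filter_congr fun t _ => ?_
    rw [eq_sub_iff_add_eq, add_comm]
  have e2 : (A ×ˢ A).filter (fun t => φ t.1 = φ t.2) =
      (A ×ˢ A).filter (fun t => φ t.2 = id (φ t.1)) := by
    refine Finset.filter_congr fun t _ => ?_
    rw [id, eq_comm]
  rw [e1, e2, fib A φ w (fun r => c - r), fib A φ w id]
  set F : R → ℝ := fun r => ∑ a ∈ A.filter (fun a => φ a = r), w a with hF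
  show ∑ r, F r * F (c - r) ≤ ∑ r, F r * F r
  have h1 : ∑ r, F (c - r) * F (c - r) = ∑ r, F r * F r :=
    (Equiv.subLeft c).sum_comp fun r => F r * F r
  have h2 : ∑ r, F r * F (c - r) ≤ ∑ r, (F r * F r + F (c - r) * F (c - r)) / 2 := by
    refine Finset.sum_le_sum fun r _ => ?_
    nlinarith [sq_nonneg (F r - F (c - r))]
  rw [← Finset.sum_div, Finset.sum_add_distrib, h1] at h2
  linarith

/-! ### The energy bound -/

theorem wt_pos {q : ℕ} {R : ℝ} (hR : 0 < R) : 0 < wt q R := by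
  unfold wt
  have : 0 ≤ R ^ 2 / √(q : ℝ) := by positivity
  linarith

/-- the weight -/
noncomputable def w (q : ℕ) (a : ℤ) : ℝ := 1 / √(wt q (RR a))

theorem w_pos (q : ℕ) (a : ℤ) : 0 < w q a := by
  unfold w
  have := wt_pos (q := q) (RR_pos a)
  positivity

theorem w_mul (q : ℕ) (a b : ℤ) : w q a * w q b = 1 / √(wt q (RR a) * wt q (RR b)) := by
  unfold w
  rw [Real.sqrt_mul (wt_pos (RR_pos a)).le, one_div_mul_one_div]

/-- sign -/
def sg (b : Bool) : ℤ := if b then 1 else -1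

theorem sg_natAbs (x : ℤ) : x = sg (decide (0 ≤ x)) * (x.natAbs : ℤ) := by
  unfold sg
  by_cases h : 0 ≤ x
  · rw [if_pos (by simpa using h), one_mul, Int.natCast_natAbs, abs_of_nonneg h]
  · rw [if_neg (by simpa using h), Int.natCast_natAbs, abs_of_neg (not_le.1 h)]
    ring

/-- the relation modulo `q` -/
theorem rel {q : ℕ} {b1 b2 : Bool} {n1 n2 : ℕ}
    (h : ((sg b1 * n1 : ℤ) : ZMod q) = ((sg b2 * n2 : ℤ) : ZMod q)) :
    (n1 : ZMod q) = ((if b1 = b2 then 1 else -1 : (ZMod q)ˣ) : ZMod q) * (n2 : ZMod q) := by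
  unfold sg at h
  cases b1 <;> cases b2 <;> simp at h ⊢
  · exact h
  · linear_combination -h
  · exact h
  · exact h

theorem natAbs_mem {x : ℤ} {H : ℕ} (h : x ∈ Tz H) : x.natAbs ∈ Icc 1 H := by
  unfold Tz at h
  rw [Finset.mem_filter, Finset.mem_Icc] at h
  rw [Finset.mem_Icc]
  omega

open Classical in
/-- the pairs of entries -/
noncomputable def Pr (H q : ℕ) (c : ZMod q) : Finset (ℤ × ℤ) :=
  (((Tz H).filter fun a => IsUnit ((a : ℤ) : ZMod q)) ×ˢ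
    ((Tz H).filter fun a => IsUnit ((a : ℤ) : ZMod q))).filter
    (fun t => ((t.1 : ℤ) : ZMod q) + ((t.2 : ℤ) : ZMod q) = c)

open Classical in
theorem mem_Pr {H q : ℕ} {c : ZMod q} {t : ℤ × ℤ} : t ∈ Pr H q c ↔
    ((t.1 ∈ Tz H ∧ IsUnit ((t.1 : ℤ) : ZMod q)) ∧ (t.2 ∈ Tz H ∧ IsUnit ((t.2 : ℤ) : ZMod q))) ∧
      ((t.1 : ℤ) : ZMod q) + ((t.2 : ℤ) : ZMod q) = c := by
  unfold Pr
  rw [Finset.mem_filter, Finset.mem_product, Finset.mem_filter, Finset.mem_filter]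

open Classical in
theorem energy {C2 ε : ℝ} (hG : ∀ (N q : ℕ) [NeZero q], 1 ≤ N → q ≤ N → ∀ u : (ZMod q)ˣ,
    ∑ t ∈ ((Finset.Icc 1 N) ×ˢ (Finset.Icc 1 N)).filter
      (fun t => ((t.1 : ℕ) : ZMod q) = u * ((t.2 : ℕ) : ZMod q) ∧ IsUnit ((t.1 : ℕ) : ZMod q)),
    1 / Real.sqrt (wt q (rad t.1) * wt q (rad t.2)) ≤ C2 * (N : ℝ) ^ ε)
    (H q : ℕ) [NeZero q] (hH : 1 ≤ H) (hq : q ≤ H) (c : ZMod q) :
    ∑ t ∈ Pr H q c, w q t.1 * w q t.2 ≤ 4 * (C2 * (H : ℝ) ^ ε) := by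
  have e : Pr H q c = (((Tz H).filter fun a => IsUnit ((a : ℤ) : ZMod q)) ×ˢ
        ((Tz H).filter fun a => IsUnit ((a : ℤ) : ZMod q))).filter
        (fun t => ((t.1 : ℤ) : ZMod q) + ((t.2 : ℤ) : ZMod q) = c) := by
    ext t
    rw [mem_Pr, Finset.mem_filter, Finset.mem_product, Finset.mem_filter, Finset.mem_filter]
  rw [e]
  refine (cs ((Tz H).filter fun a => IsUnit ((a : ℤ) : ZMod q))
    (fun a : ℤ => (a : ZMod q)) (w q) c).trans ?_
  set S := (((Tz H).filter fun a => IsUnit ((a : ℤ) : ZMod q)) ×ˢ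
        ((Tz H).filter fun a => IsUnit ((a : ℤ) : ZMod q))).filter
        (fun t => ((t.1 : ℤ) : ZMod q) = ((t.2 : ℤ) : ZMod q)) with hS
  rw [← Finset.sum_fiberwise S (fun t => (decide (0 ≤ t.1), decide (0 ≤ t.2)))]
  have hfib : ∀ k ∈ (univ : Finset (Bool × Bool)),
      ∑ t ∈ S.filter (fun t => (decide (0 ≤ t.1), decide (0 ≤ t.2)) = k), w q t.1 * w q t.2 ≤
        C2 * (H : ℝ) ^ ε := by
    rintro ⟨b1, b2⟩ -
    set u : (ZMod q)ˣ := if b1 = b2 then 1 else -1 with hu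
    refine le_trans ?_ (hG H q hH hq u)
    set F := ((Finset.Icc 1 H) ×ˢ (Finset.Icc 1 H)).filter
      (fun t => ((t.1 : ℕ) : ZMod q) = u * ((t.2 : ℕ) : ZMod q) ∧ IsUnit ((t.1 : ℕ) : ZMod q))
      with hF
    set g : ℕ × ℕ → ℝ := fun t => 1 / Real.sqrt (wt q (rad t.1) * wt q (rad t.2)) with hgdef
    have hg0 : ∀ t, 0 ≤ g t := fun t => by simp only [hgdef]; positivity
    set ψ : ℤ × ℤ → ℕ × ℕ := fun t => (t.1.natAbs, t.2.natAbs) with hψ
    set A := S.filter (fun t => (decide (0 ≤ t.1), decide (0 ≤ t.2)) = (b1, b2)) with hA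
    have hel : ∀ t ∈ A, t ∈ S ∧ t.1 = sg b1 * (t.1.natAbs : ℤ) ∧
        t.2 = sg b2 * (t.2.natAbs : ℤ) := by
      intro t ht
      rw [hA, Finset.mem_filter] at ht
      obtain ⟨h1, h2⟩ := ht
      rw [Prod.mk.injEq] at h2
      refine ⟨h1, ?_, ?_⟩
      · rw [← h2.1]; exact sg_natAbs t.1
      · rw [← h2.2]; exact sg_natAbs t.2
    have hinj : Set.InjOn ψ A := by
      intro t ht s hs hts
      obtain ⟨-, h2, h3⟩ := hel t (by exact_mod_cast ht)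
      obtain ⟨-, g2, g3⟩ := hel s (by exact_mod_cast hs)
      simp only [hψ, Prod.mk.injEq] at hts
      exact Prod.ext (by rw [h2, g2, hts.1]) (by rw [h3, g3, hts.2])
    have hsub : ∀ t ∈ A, ψ t ∈ F := by
      intro t ht
      obtain ⟨h1, h2, h3⟩ := hel t ht
      rw [hS, Finset.mem_filter, Finset.mem_product, Finset.mem_filter, Finset.mem_filter] at h1
      obtain ⟨⟨⟨t1, u1⟩, ⟨t2, u2⟩⟩, heq⟩ := h1
      rw [hF, Finset.mem_filter, Finset.mem_product]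
      refine ⟨⟨natAbs_mem t1, natAbs_mem t2⟩, ?_, ?_⟩
      · refine rel (b1 := b1) (b2 := b2) ?_
        show ((sg b1 * (t.1.natAbs : ℤ) : ℤ) : ZMod q) = ((sg b2 * (t.2.natAbs : ℤ) : ℤ) : ZMod q)
        rw [← h2, ← h3]
        exact heq
      · show IsUnit ((t.1.natAbs : ℕ) : ZMod q)
        have h4 : ((t.1 : ℤ) : ZMod q) = ((sg b1 : ℤ) : ZMod q) * ((t.1.natAbs : ℕ) : ZMod q) := by
          conv_lhs => rw [h2]
          rw [Int.cast_mul, Int.cast_natCast]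
        rw [h4] at u1
        exact isUnit_of_mul_isUnit_right u1
    calc ∑ t ∈ A, w q t.1 * w q t.2 = ∑ t ∈ A, g (ψ t) := by
          refine Finset.sum_congr rfl fun t _ => ?_
          rw [w_mul]
          rfl
      _ = ∑ s ∈ image ψ A, g s := by rw [sum_image hinj]
      _ ≤ ∑ s ∈ F, g s :=
          sum_le_sum_of_subset_of_nonneg (image_subset_iff.2 hsub) fun s _ _ => hg0 s
  refine (Finset.sum_le_sum hfib).trans ?_
  rw [Finset.sum_const, Finset.card_univ, Fintype.card_prod, Fintype.card_bool, nsmul_eq_mul]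
  norm_num

/-! ### Splitting a tuple -/

/-- the tuple with the entries `i`, `j`, `k` replaced by `0` -/
def Y {n : ℕ} (i j k : Fin n) (x : Fin n → ℤ) : Fin n → ℤ :=
  fun l => if l = i ∨ l = j ∨ l = k then 0 else x l

theorem sum_Y {n : ℕ} {i j k : Fin n} (hij : i ≠ j) (hik : i ≠ k) (hjk : j ≠ k)
    (x : Fin n → ℤ) : ∑ l, x l = x i + x j + x k + ∑ l, Y i j k x l := by
  have h : ∀ l, x l = ((if l = i then x i else 0) + (if l = j then x j else 0) +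
      (if l = k then x k else 0)) + Y i j k x l := by
    intro l
    unfold Y
    by_cases h1 : l = i
    · subst h1
      simp [hij, hik]
    · by_cases h2 : l = j
      · subst h2
        simp [h1, hjk]
      · by_cases h3 : l = k
        · subst h3
          simp [h1, h2]
        · simp [h1, h2, h3]
  rw [Finset.sum_congr rfl fun l _ => h l, Finset.sum_add_distrib, Finset.sum_add_distrib,
    Finset.sum_add_distrib]
  simp

theorem prod_Y {n : ℕ} (i j k : Fin n) (x : Fin n → ℤ) :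
    ∏ l ∈ Finset.univ.filter (fun l => l ≠ i ∧ l ≠ j ∧ l ≠ k), RR (x l) =
      ∏ l, RR (Y i j k x l) := by
  rw [← Finset.prod_filter_mul_prod_filter_not Finset.univ
    (fun l => l ≠ i ∧ l ≠ j ∧ l ≠ k) (fun l => RR (Y i j k x l))]
  have e1 : ∏ l ∈ Finset.univ.filter (fun l => ¬ (l ≠ i ∧ l ≠ j ∧ l ≠ k)),
      RR (Y i j k x l) = 1 := by
    refine Finset.prod_eq_one fun l hl => ?_
    have h := (Finset.mem_filter.1 hl).2
    have h' : l = i ∨ l = j ∨ l = k := by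
      by_contra hc
      push Not at hc
      exact h hc
    unfold Y
    rw [if_pos h', RR_zero]
  rw [e1, mul_one]
  refine Finset.prod_congr rfl fun l hl => ?_
  obtain ⟨h1, h2, h3⟩ := (Finset.mem_filter.1 hl).2
  unfold Y
  rw [if_neg (by push Not; exact ⟨h1, h2, h3⟩)]

/-- the index set of the triples of positions and the divisors -/
noncomputable def Ks (n H : ℕ) : Finset (Fin n × Fin n × Fin n × ℕ) :=
  univ ×ˢ univ ×ˢ univ ×ˢ Icc 1 H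

/-- the box -/
noncomputable def Bx (n H : ℕ) : Finset (Fin n → ℤ) :=
  Fintype.piFinset fun _ => Icc (-(H : ℤ)) H

/-- the weight of a configuration -/
noncomputable def W {n : ℕ} (Z : ℝ) (q : ℕ) (y : Fin n → ℤ) (t : ℤ × ℤ) : ℝ :=
  Z * (1 / (rad q : ℝ)) * (∏ l, 1 / RR (y l)) * (w q t.1 * w q t.2)

theorem ncard_le (n H : ℕ) (Z : ℝ) (hZ : 0 ≤ Z) :
    ((NE n H Z).ncard : ℝ) ≤ ∑ p ∈ Ks n H ×ˢ Bx n H,
      ∑ t ∈ Pr H p.1.2.2.2 (-((∑ l, p.2 l : ℤ) : ZMod p.1.2.2.2)), W Z p.1.2.2.2 p.2 t := by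
  classical
  have hW0 : ∀ (q : ℕ) (y : Fin n → ℤ) (t : ℤ × ℤ), 0 ≤ W Z q y t := by
    intro q y t
    unfold W
    have h1 := w_pos q t.1
    have h2 := w_pos q t.2
    have h3 : 0 ≤ ∏ l, 1 / RR (y l) :=
      Finset.prod_nonneg fun l _ => (one_div_pos.2 (RR_pos _)).le
    positivity
  rcases (NE n H Z).eq_empty_or_nonempty with he | ⟨x0, hx0⟩
  · rw [he, Set.ncard_empty, Nat.cast_zero]
    exact Finset.sum_nonneg fun p _ => Finset.sum_nonneg fun t _ => hW0 _ _ _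
  obtain ⟨i0, -⟩ := hx0.2
  have : Nonempty (Fin n × Fin n × Fin n × ℕ) := ⟨(i0, i0, i0, 0)⟩
  have hk : ∀ x ∈ NE n H Z, ∃ κ : Fin n × Fin n × Fin n × ℕ, κ.1 ≠ κ.2.1 ∧ κ.1 ≠ κ.2.2.1 ∧
      κ.2.1 ≠ κ.2.2.1 ∧ 1 ≤ κ.2.2.2 ∧ (κ.2.2.2 : ℤ) ∣ x κ.2.2.1 ∧
      (rad κ.2.2.2 : ℝ) * (∏ l ∈ Finset.univ.filter
        (fun l => l ≠ κ.1 ∧ l ≠ κ.2.1 ∧ l ≠ κ.2.2.1), RR (x l)) *
        Real.sqrt (wt κ.2.2.2 (RR (x κ.1)) * wt κ.2.2.2 (RR (x κ.2.1))) ≤ Z := by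
    rintro x ⟨-, i, j, k, q, h⟩
    exact ⟨(i, j, k, q), h⟩
  choose! κ h1 h2 h3 h4 h5 h6 using hk
  set f : (Fin n → ℤ) → (Σ _ : (Fin n × Fin n × Fin n × ℕ) × (Fin n → ℤ), ℤ × ℤ) :=
    fun x => ⟨(κ x, Y (κ x).1 (κ x).2.1 (κ x).2.2.1 x), (x (κ x).1, x (κ x).2.1)⟩ with hf
  set Big : Finset (Σ _ : (Fin n × Fin n × Fin n × ℕ) × (Fin n → ℤ), ℤ × ℤ) :=
    (Ks n H ×ˢ Bx n H).sigma fun p => Pr H p.1.2.2.2 (-((∑ l, p.2 l : ℤ) : ZMod p.1.2.2.2))
    with hBig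
  have hmem : ∀ x ∈ NE n H Z, f x ∈ Big := by
    intro x hx
    obtain ⟨a0, a1, a2, a3⟩ := hx.1
    rw [hBig, Finset.mem_sigma, Finset.mem_product]
    refine ⟨⟨?_, ?_⟩, ?_⟩
    · show κ x ∈ Ks n H
      unfold Ks
      simp only [Finset.mem_product, Finset.mem_univ, true_and, Finset.mem_Icc]
      refine ⟨h4 x hx, ?_⟩
      have h7 := Int.le_of_dvd (abs_pos.2 (a0 _)) ((dvd_abs _ _).2 (h5 x hx))
      exact_mod_cast h7.trans (a3 _)
    · show Y (κ x).1 (κ x).2.1 (κ x).2.2.1 x ∈ Bx n H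
      unfold Bx
      rw [Fintype.mem_piFinset]
      intro l
      rw [Finset.mem_Icc]
      unfold Y
      split_ifs
      · constructor <;> omega
      · exact abs_le.1 (a3 l)
    · show (x (κ x).1, x (κ x).2.1) ∈ Pr H (κ x).2.2.2
        (-((∑ l, Y (κ x).1 (κ x).2.1 (κ x).2.2.1 x l : ℤ) : ZMod (κ x).2.2.2))
      have hu : ∀ l, l ≠ (κ x).2.2.1 → IsUnit ((x l : ℤ) : ZMod (κ x).2.2.2) := by
        intro l hl
        have e1 : IsCoprime (x l) ((κ x).2.2.2 : ℤ) :=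
          IsCoprime.of_isCoprime_of_dvd_right (a1 _ _ hl) (h5 x hx)
        obtain ⟨a, b, hab⟩ := e1
        have e2 := congrArg (fun z : ℤ => (z : ZMod (κ x).2.2.2)) hab
        simp only [Int.cast_add, Int.cast_mul, Int.cast_natCast, ZMod.natCast_self, mul_zero,
          add_zero, Int.cast_one] at e2
        exact IsUnit.of_mul_eq_one _ (by rw [mul_comm]; exact e2)
      have hT : ∀ l, x l ∈ Tz H := by
        intro l
        unfold Tz
        rw [Finset.mem_filter, Finset.mem_Icc]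
        exact ⟨abs_le.1 (a3 l), a0 l⟩
      rw [mem_Pr]
      refine ⟨⟨⟨hT _, hu _ (h2 x hx)⟩, ⟨hT _, hu _ (h3 x hx)⟩⟩, ?_⟩
      have e3 := sum_Y (h1 x hx) (h2 x hx) (h3 x hx) x
      rw [a2] at e3
      have e4 : ((x (κ x).2.2.1 : ℤ) : ZMod (κ x).2.2.2) = 0 := by
        rw [ZMod.intCast_zmod_eq_zero_iff_dvd]
        exact h5 x hx
      have e5 : ((x (κ x).1 + x (κ x).2.1 + x (κ x).2.2.1 +
          ∑ l, Y (κ x).1 (κ x).2.1 (κ x).2.2.1 x l : ℤ) : ZMod (κ x).2.2.2) = 0 := by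
        rw [← e3]; simp
      rw [Int.cast_add, Int.cast_add, Int.cast_add, e4, add_zero] at e5
      exact eq_neg_of_add_eq_zero_left e5
  have hinj : Set.InjOn f (NE n H Z) := by
    intro x hx y hy hxy
    simp only [hf] at hxy
    obtain ⟨g1, g2⟩ := Sigma.mk.inj hxy
    obtain ⟨g3, g4⟩ := Prod.mk.inj g1
    obtain ⟨g5, g6⟩ := Prod.mk.inj (eq_of_heq g2)
    rw [← g3] at g4 g5 g6
    have g7 : ∀ l, l ≠ (κ x).1 → l ≠ (κ x).2.1 → l ≠ (κ x).2.2.1 → x l = y l := by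
      intro l l1 l2 l3
      have := congrFun g4 l
      unfold Y at this
      rwa [if_neg (by push Not; exact ⟨l1, l2, l3⟩), if_neg (by push Not; exact ⟨l1, l2, l3⟩)]
        at this
    have e1 := sum_Y (h1 x hx) (h2 x hx) (h3 x hx) x
    have e2 := sum_Y (h1 x hx) (h2 x hx) (h3 x hx) y
    rw [hx.1.2.2.1] at e1
    rw [hy.1.2.2.1] at e2
    rw [g4, g5, g6] at e1
    have e3 : x (κ x).2.2.1 = y (κ x).2.2.1 := by linarith
    funext l
    by_cases l1 : l = (κ x).1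
    · rw [l1, g5]
    · by_cases l2 : l = (κ x).2.1
      · rw [l2, g6]
      · by_cases l3 : l = (κ x).2.2.1
        · rw [l3, e3]
        · exact g7 l l1 l2 l3
  have hfin : (NE n H Z).Finite := Set.Finite.of_injOn hmem hinj (Finset.finite_toSet Big)
  have hWx : ∀ x ∈ NE n H Z, 1 ≤ W Z (f x).1.1.2.2.2 (f x).1.2 (f x).2 := by
    intro x hx
    have p1 : (0 : ℝ) < rad (κ x).2.2.2 := by exact_mod_cast rad_pos _
    have p2 : 0 < ∏ l, RR (Y (κ x).1 (κ x).2.1 (κ x).2.2.1 x l) :=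
      Finset.prod_pos fun l _ => RR_pos _
    have p3 : 0 < Real.sqrt (wt (κ x).2.2.2 (RR (x (κ x).1)) *
        wt (κ x).2.2.2 (RR (x (κ x).2.1))) :=
      Real.sqrt_pos.2 (mul_pos (wt_pos (RR_pos _)) (wt_pos (RR_pos _)))
    have h7 := h6 x hx
    rw [prod_Y] at h7
    show 1 ≤ W Z (κ x).2.2.2 (Y (κ x).1 (κ x).2.1 (κ x).2.2.1 x) (x (κ x).1, x (κ x).2.1)
    unfold W
    rw [w_mul, Finset.prod_div_distrib, Finset.prod_const_one]
    have e : Z * (1 / (rad (κ x).2.2.2 : ℝ)) *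
        (1 / ∏ l, RR (Y (κ x).1 (κ x).2.1 (κ x).2.2.1 x l)) *
        (1 / Real.sqrt (wt (κ x).2.2.2 (RR (x (κ x).1)) *
          wt (κ x).2.2.2 (RR (x (κ x).2.1)))) =
        Z / ((rad (κ x).2.2.2 : ℝ) * (∏ l, RR (Y (κ x).1 (κ x).2.1 (κ x).2.2.1 x l)) *
          Real.sqrt (wt (κ x).2.2.2 (RR (x (κ x).1)) *
            wt (κ x).2.2.2 (RR (x (κ x).2.1)))) := by
      field_simp
    rw [e, one_le_div (mul_pos (mul_pos p1 p2) p3)]
    exact h7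
  rw [Set.ncard_eq_toFinset_card _ hfin]
  calc ((hfin.toFinset.card : ℕ) : ℝ) = ∑ x ∈ hfin.toFinset, (1 : ℝ) := by simp
    _ ≤ ∑ x ∈ hfin.toFinset, W Z (f x).1.1.2.2.2 (f x).1.2 (f x).2 :=
        Finset.sum_le_sum fun x hx => hWx x (hfin.mem_toFinset.1 hx)
    _ = ∑ z ∈ image f hfin.toFinset, W Z z.1.1.2.2.2 z.1.2 z.2 := by
        rw [Finset.sum_image]
        intro x hx y hy hxy
        exact hinj (hfin.mem_toFinset.1 hx) (hfin.mem_toFinset.1 hy) hxy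
    _ ≤ ∑ z ∈ Big, W Z z.1.1.2.2.2 z.1.2 z.2 := by
        refine Finset.sum_le_sum_of_subset_of_nonneg ?_ fun z _ _ => hW0 _ _ _
        rw [Finset.image_subset_iff]
        exact fun x hx => hmem x (hfin.mem_toFinset.1 hx)
    _ = _ := by rw [hBig, Finset.sum_sigma]

theorem pf_N2 : T_A → T_G → T_N2 := by
  classical
  intro hA hG n ε hε
  have hn1 : (0 : ℝ) < n + 1 := by positivity
  obtain ⟨C1, hC1, hA1⟩ := hA (ε / (2 * (n + 1))) (by positivity)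
  obtain ⟨C2, hC2, hG1⟩ := hG (ε / 2) (by linarith)
  have hC' : 1 ≤ max C1 1 := le_max_right _ _
  obtain ⟨c, hc⟩ : ∃ c : ℝ, c = max C1 1 := ⟨_, rfl⟩
  have hc0 : 0 < c := by rw [hc]; positivity
  refine ⟨4 * C2 * n ^ 3 * (c * (3 * c) ^ n) + 1, by positivity, fun H Z hH hZ => ?_⟩
  have hH1 : (1 : ℝ) ≤ H := by exact_mod_cast hH
  have hH0 : (0 : ℝ) < H := by linarith
  have hc1 : 1 ≤ c := hc ▸ hC'
  obtain ⟨B, hBdef⟩ : ∃ B : ℝ, B = c * (H : ℝ) ^ (ε / (2 * (n + 1))) := ⟨_, rfl⟩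
  have hp : 1 ≤ (H : ℝ) ^ (ε / (2 * (n + 1))) := Real.one_le_rpow hH1 (by positivity)
  have hB1 : 1 ≤ B := by
    rw [hBdef]
    nlinarith [mul_le_mul hc1 hp zero_le_one (by positivity)]
  have hR : ∑ q ∈ Icc 1 H, (1 : ℝ) / (rad q : ℝ) ≤ B := by
    refine (hA1 H hH).trans ?_
    rw [hBdef, hc]
    exact mul_le_mul_of_nonneg_right (le_max_left _ _) (by positivity)
  have hS : ∑ x ∈ Icc (-(H : ℤ)) H, 1 / RR x ≤ 3 * B := by
    rw [← Finset.sum_filter_add_sum_filter_not _ (fun x : ℤ => x ≠ 0)]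
    have e1 : ∑ x ∈ (Icc (-(H : ℤ)) H).filter (fun x => ¬ x ≠ 0), 1 / RR x ≤ 1 := by
      have e2 : (Icc (-(H : ℤ)) H).filter (fun x => ¬ x ≠ 0) = {0} := by
        ext x
        simp only [Finset.mem_filter, Finset.mem_Icc, Finset.mem_singleton, not_not]
        constructor
        · exact fun h => h.2
        · rintro rfl
          exact ⟨⟨by omega, by omega⟩, rfl⟩
      rw [e2, Finset.sum_singleton, RR_zero, one_div_one]
    have e3 : ∑ x ∈ (Icc (-(H : ℤ)) H).filter (fun x => x ≠ 0), 1 / RR x ≤ 2 * B :=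
      (sum_le H).trans (mul_le_mul_of_nonneg_left hR (by norm_num))
    linarith
  have hS0 : 0 ≤ ∑ x ∈ Icc (-(H : ℤ)) H, 1 / RR x :=
    Finset.sum_nonneg fun x _ => (one_div_pos.2 (RR_pos _)).le
  obtain ⟨E, hE⟩ : ∃ E : ℝ, E = 4 * (C2 * (H : ℝ) ^ (ε / 2)) := ⟨_, rfl⟩
  have hE0 : 0 ≤ E := by rw [hE]; positivity
  have h1 : ∀ p ∈ Ks n H ×ˢ Bx n H,
      ∑ t ∈ Pr H p.1.2.2.2 (-((∑ l, p.2 l : ℤ) : ZMod p.1.2.2.2)), W Z p.1.2.2.2 p.2 t ≤
        Z * E * ((1 / (rad p.1.2.2.2 : ℝ)) * ∏ l, 1 / RR (p.2 l)) := by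
    rintro ⟨⟨i, j, k, q⟩, y⟩ hp
    simp only [Ks, Finset.mem_product, Finset.mem_univ, true_and, Finset.mem_Icc] at hp
    have : NeZero q := ⟨by omega⟩
    show ∑ t ∈ Pr H q (-((∑ l, y l : ℤ) : ZMod q)), W Z q y t ≤
      Z * E * ((1 / (rad q : ℝ)) * ∏ l, 1 / RR (y l))
    have h2 := energy hG1 H q hH hp.1.2 (-((∑ l, y l : ℤ) : ZMod q))
    have h3 : 0 ≤ ∏ l, 1 / RR (y l) :=
      Finset.prod_nonneg fun l _ => (one_div_pos.2 (RR_pos _)).le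
    unfold W
    rw [← Finset.mul_sum]
    have h4 : 0 ≤ Z * (1 / (rad q : ℝ)) * ∏ l, 1 / RR (y l) := by positivity
    refine (mul_le_mul_of_nonneg_left h2 h4).trans (le_of_eq ?_)
    rw [← hE]
    ring
  refine (ncard_le n H Z hZ).trans ((Finset.sum_le_sum h1).trans ?_)
  rw [← Finset.mul_sum, Finset.sum_product]
  simp_rw [← Finset.mul_sum]
  rw [← Finset.sum_mul]
  have h5 : ∑ y ∈ Bx n H, ∏ l, 1 / RR (y l) = (∑ x ∈ Icc (-(H : ℤ)) H, 1 / RR x) ^ n := by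
    unfold Bx
    rw [← Finset.prod_univ_sum (fun _ : Fin n => Icc (-(H : ℤ)) H) fun _ x => 1 / RR x,
      Finset.prod_const, Finset.card_univ, Fintype.card_fin]
  have h6 : ∑ κ ∈ Ks n H, (1 : ℝ) / (rad κ.2.2.2 : ℝ) =
      n ^ 3 * ∑ q ∈ Icc 1 H, (1 : ℝ) / (rad q : ℝ) := by
    unfold Ks
    simp only [Finset.sum_product, Finset.sum_const, Finset.card_univ, Fintype.card_fin,
      nsmul_eq_mul]
    ring
  rw [h5, h6]
  have h7 : (∑ x ∈ Icc (-(H : ℤ)) H, 1 / RR x) ^ n ≤ (3 * B) ^ n :=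
    pow_le_pow_left₀ hS0 hS n
  have h8 : (n : ℝ) ^ 3 * ∑ q ∈ Icc 1 H, (1 : ℝ) / (rad q : ℝ) ≤ n ^ 3 * B :=
    mul_le_mul_of_nonneg_left hR (by positivity)
  have h9 : (n : ℝ) ^ 3 * (∑ q ∈ Icc 1 H, (1 : ℝ) / (rad q : ℝ)) *
      (∑ x ∈ Icc (-(H : ℤ)) H, 1 / RR x) ^ n ≤ n ^ 3 * B * (3 * B) ^ n :=
    mul_le_mul h8 h7 (by positivity) (by positivity)
  have h10 : B * (3 * B) ^ n = c * (3 * c) ^ n * (H : ℝ) ^ (ε / 2) := by
    have e1 : (H : ℝ) ^ (ε / 2) = ((H : ℝ) ^ (ε / (2 * (n + 1)))) ^ (n + 1) := by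
      rw [← Real.rpow_natCast, ← Real.rpow_mul hH0.le]
      congr 1
      push_cast
      field_simp
    rw [e1, hBdef]
    ring
  have h11 : (H : ℝ) ^ ε = (H : ℝ) ^ (ε / 2) * (H : ℝ) ^ (ε / 2) := by
    rw [← Real.rpow_add hH0]; congr 1; ring
  have h12 : 0 ≤ (H : ℝ) ^ ε * Z := by positivity
  calc Z * E * ((n : ℝ) ^ 3 * (∑ q ∈ Icc 1 H, (1 : ℝ) / (rad q : ℝ)) *
        (∑ x ∈ Icc (-(H : ℤ)) H, 1 / RR x) ^ n) ≤ Z * E * (n ^ 3 * B * (3 * B) ^ n) :=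
        mul_le_mul_of_nonneg_left h9 (mul_nonneg hZ hE0)
    _ = 4 * C2 * n ^ 3 * (c * (3 * c) ^ n) * ((H : ℝ) ^ ε * Z) := by
        have : Z * E * (n ^ 3 * B * (3 * B) ^ n) = Z * E * n ^ 3 * (B * (3 * B) ^ n) := by ring
        rw [this, h10, h11, hE]
        ring
    _ ≤ (4 * C2 * n ^ 3 * (c * (3 * c) ^ n) + 1) * (H : ℝ) ^ ε * Z := by nlinarith

end Pool.Agent.H68.AE.N2
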